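import Mathlib

/-! An infinite word over `{0, 1, 2, 3}` without additive cubes.

The word is the fixed point of the uniform morphism
`0 ↦ 121001002001001`, `1 ↦ 121001002022131`, `2 ↦ 121001132232131`, `3 ↦ 121321332232131`
with `sum (h x) = 9 + 7 x`.  Every image `h x` follows the path `a` up to position `t x`, has the
letter `c x` there, and follows the path `b` afterwards.  The classes `(n mod 15, (S n + 5 n) mod 7)`
of all prefixes form a set without nontrivial four-term arithmetic progressions, hence the four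
cutting points of an additive cube are at the same place of the images and the cube comes from a
shorter one. -/

set_option autoImplicit false

namespace Pool.Agent.Helper14.AddCube4

open Finset

def a (i : ℕ) : ℕ := [1, 2, 1, 0, 0, 1, 0, 0, 2, 0, 0, 1, 0, 0, 1].getD i 0
def b (i : ℕ) : ℕ := [1, 2, 1, 3, 2, 1, 3, 3, 2, 2, 3, 2, 1, 3, 1].getD i 0
def t (x : ℕ) : ℕ := [13, 10, 6, 3].getD x 0
def c (x : ℕ) : ℕ := [0, 2, 1, 3].getD x 0
/-- prefix sums of the path `a` -/
def pa (i : ℕ) : ℕ := [0, 1, 3, 4, 4, 4, 5, 5, 5, 7, 7, 7, 8, 8, 8, 9].getD i 0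
/-- prefix sums of the path `b` -/
def pb (i : ℕ) : ℕ := [0, 1, 3, 4, 7, 9, 10, 13, 16, 18, 20, 23, 25, 26, 29, 30].getD i 0

/-- class of a prefix ending on the path `a` -/
def ca (r : ℕ) : ℕ := (pa r + 5 * r) % 7
/-- class of a prefix ending on the path `b` -/
def cb (r : ℕ) : ℕ := if r = 0 then 0 else (pb r + 5 * r) % 7

/-- the `i`-th letter of the image of the letter `x` -/
def img (x i : ℕ) : ℕ := if i < t x then a i else if i = t x then c x else b i

lemma step_facts : ∀ i < 15, pa (i + 1) = pa i + a i ∧ pb (i + 1) = pb i + b i ∧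
    a i < 4 ∧ b i < 4 := by decide

lemma c_facts : ∀ x < 4, t x < 15 ∧ c x < 4 ∧
    pa (t x) + c x + 30 = 9 + 7 * x + pb (t x + 1) := by decide

lemma type_facts : ∀ r < 15, ca r ≠ cb r ∨ (∀ x < 4, r ≤ t x) ∨ (∀ x < 4, t x < r) := by decide

/-- the next term of the progression starting with the classes `(r0, s0)`, `(r1, s1)` -/
def nr (r0 r1 : ℕ) : ℕ := (2 * r1 + 15 - r0) % 15
/-- the next term of the progression starting with the classes `(r0, s0)`, `(r1, s1)` -/
def ns (s0 s1 : ℕ) : ℕ := (2 * s1 + 7 - s0) % 7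

/-- membership of a class -/
def isC (r s : ℕ) : Bool := Nat.beq s (ca r) || Nat.beq s (cb r)

def chk1 (r0 s0 r1 s1 : ℕ) : Bool :=
  !(isC (nr r0 r1) (ns s0 s1) && isC (nr r1 (nr r0 r1)) (ns s1 (ns s0 s1))) ||
  (Nat.beq r0 r1 && Nat.beq s0 s1)

def chkAP : Bool := (List.range 15).all fun r0 => (List.range 15).all fun r1 =>
  chk1 r0 (ca r0) r1 (ca r1) && chk1 r0 (ca r0) r1 (cb r1) &&
  chk1 r0 (cb r0) r1 (ca r1) && chk1 r0 (cb r0) r1 (cb r1)

lemma chkAP_true : chkAP = true := by decide +kernel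

lemma isC_iff {r s : ℕ} : isC r s = true ↔ s = ca r ∨ s = cb r := by
  rw [isC]
  simp only [Bool.or_eq_true, Nat.beq_eq]

lemma chk1_spec {r0 s0 r1 s1 : ℕ} (h : chk1 r0 s0 r1 s1 = true)
    (h2 : isC (nr r0 r1) (ns s0 s1) = true)
    (h3 : isC (nr r1 (nr r0 r1)) (ns s1 (ns s0 s1)) = true) : r0 = r1 ∧ s0 = s1 := by
  rw [chk1, h2, h3] at h
  simpa only [Bool.and_self, Bool.not_true, Bool.false_or, Bool.and_eq_true, Nat.beq_eq] using h

lemma ap_facts {r0 r1 s0 s1 : ℕ} (h0 : r0 < 15) (h1 : r1 < 15) (hs0 : s0 = ca r0 ∨ s0 = cb r0)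
    (hs1 : s1 = ca r1 ∨ s1 = cb r1)
    (h2 : isC (nr r0 r1) (ns s0 s1) = true)
    (h3 : isC (nr r1 (nr r0 r1)) (ns s1 (ns s0 s1)) = true) : r0 = r1 ∧ s0 = s1 := by
  have h := chkAP_true
  rw [chkAP, List.all_eq_true] at h
  have h4 := h r0 (List.mem_range.2 h0)
  rw [List.all_eq_true] at h4
  have h5 := h4 r1 (List.mem_range.2 h1)
  simp only [Bool.and_eq_true] at h5
  rcases hs0 with rfl | rfl <;> rcases hs1 with rfl | rfl
  · exact chk1_spec h5.1.1.1 h2 h3
  · exact chk1_spec h5.1.1.2 h2 h3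
  · exact chk1_spec h5.1.2 h2 h3
  · exact chk1_spec h5.2 h2 h3

lemma img_lt {x i : ℕ} (hx : x < 4) (hi : i < 15) : img x i < 4 := by
  rw [img]
  have h1 := step_facts i hi
  have h2 := c_facts x hx
  split_ifs
  · exact h1.2.2.1
  · exact h2.2.1
  · exact h1.2.2.2

/-! ### The word -/

/-- the fixed point -/
def w : ℕ → ℕ
  | 0 => 1
  | (n + 1) => img (w ((n + 1) / 15)) ((n + 1) % 15)
termination_by n => n
decreasing_by exact Nat.div_lt_self (Nat.succ_pos n) (by norm_num)

lemma w_eq (n : ℕ) : w n = img (w (n / 15)) (n % 15) := by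
  cases n with
  | zero => simp only [Nat.zero_div, Nat.zero_mod]; rw [w]; decide
  | succ n => rw [w]

lemma w_lt (n : ℕ) : w n < 4 := by
  induction n using Nat.strong_induction_on with
  | _ n ih =>
    cases n with
    | zero => rw [w]; norm_num
    | succ n =>
      rw [w]
      exact img_lt (ih _ (Nat.div_lt_self (Nat.succ_pos n) (by norm_num)))
        (Nat.mod_lt _ (by norm_num))

/-- prefix sums -/
def S (n : ℕ) : ℕ := ∑ i ∈ range n, w i

lemma S_succ (n : ℕ) : S (n + 1) = S n + w n := by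
  rw [S, S, sum_range_succ]

lemma block_pre {x : ℕ} (hx : x < 4) : ∀ r : ℕ, r ≤ 15 →
    (r ≤ t x → ∑ i ∈ range r, img x i = pa r) ∧
    (t x < r → ∑ i ∈ range r, img x i + 30 = 9 + 7 * x + pb r) := by
  intro r
  induction r with
  | zero =>
    intro _
    refine ⟨fun _ => by simp [pa], fun h => absurd h (by omega)⟩
  | succ r ih =>
    intro hr
    obtain ⟨ih1, ih2⟩ := ih (by omega)
    obtain ⟨hs1, hs2, -, -⟩ := step_facts r (by omega)
    refine ⟨fun h => ?_, fun h => ?_⟩
    · rw [sum_range_succ, ih1 (by omega), img, if_pos (by omega), hs1]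
    · rw [sum_range_succ]
      rcases Nat.lt_or_ge (t x) r with h3 | h3
      · have h4 := ih2 h3
        rw [img, if_neg (by omega), if_neg (by omega), hs2]
        omega
      · have h4 : t x = r := by omega
        obtain ⟨-, -, h6⟩ := c_facts x hx
        rw [ih1 (by omega), img, if_neg (by omega), if_pos h4.symm]
        rw [h4] at h6
        exact h6

lemma block_total {x : ℕ} (hx : x < 4) : ∑ i ∈ range 15, img x i = 9 + 7 * x := by
  have h := (block_pre hx 15 le_rfl).2 (c_facts x hx).1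
  have h2 : pb 15 = 30 := by decide
  rw [h2] at h
  omega

lemma w_block (q i : ℕ) (hi : i < 15) : w (15 * q + i) = img (w q) i := by
  have h1 : (15 * q + i) / 15 = q := by omega
  have h2 : (15 * q + i) % 15 = i := by omega
  rw [w_eq, h1, h2]

lemma S_mul (q : ℕ) : S (15 * q) = 9 * q + 7 * S q := by
  induction q with
  | zero => simp [S]
  | succ q ih =>
    have h1 : S (15 * (q + 1)) = S (15 * q) + ∑ i ∈ range 15, img (w q) i := by
      have h2 : ∑ i ∈ range 15, w (15 * q + i) = ∑ i ∈ range 15, img (w q) i :=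
        sum_congr rfl (fun i hi => w_block q i (mem_range.1 hi))
      rw [S, S, show 15 * (q + 1) = 15 * q + 15 by ring, sum_range_add, h2]
    rw [h1, ih, block_total (w_lt q), S_succ]
    ring

lemma S_add (q r : ℕ) (hr : r ≤ 15) :
    S (15 * q + r) = 9 * q + 7 * S q + ∑ i ∈ range r, img (w q) i := by
  have h2 : ∑ i ∈ range r, w (15 * q + i) = ∑ i ∈ range r, img (w q) i :=
    sum_congr rfl (fun i hi => w_block q i (by have := mem_range.1 hi; omega))
  rw [← S_mul, S, S, sum_range_add, h2]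

lemma S_a (n : ℕ) (h : n % 15 ≤ t (w (n / 15))) :
    S n = 9 * (n / 15) + 7 * S (n / 15) + pa (n % 15) := by
  have hr : n % 15 < 15 := Nat.mod_lt _ (by norm_num)
  have h1 := S_add (n / 15) (n % 15) hr.le
  rw [(block_pre (w_lt _) _ hr.le).1 h] at h1
  rw [← h1]
  congr 1
  omega

lemma S_b (n : ℕ) (h : t (w (n / 15)) < n % 15) :
    S n + 30 = 9 * (n / 15 + 1) + 7 * S (n / 15 + 1) + pb (n % 15) := by
  have hr : n % 15 < 15 := Nat.mod_lt _ (by norm_num)
  have h1 := S_add (n / 15) (n % 15) hr.le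
  have h2 := (block_pre (w_lt (n / 15)) _ hr.le).2 h
  have h3 : S n = S (15 * (n / 15) + n % 15) := by
    congr 1
    omega
  rw [h3, h1, S_succ]
  omega

lemma S_class (n : ℕ) :
    (n % 15 ≤ t (w (n / 15)) ∧ (S n + 5 * n) % 7 = ca (n % 15)) ∨
    (t (w (n / 15)) < n % 15 ∧ (S n + 5 * n) % 7 = cb (n % 15)) := by
  rcases Nat.lt_or_ge (t (w (n / 15))) (n % 15) with h | h
  · right
    refine ⟨h, ?_⟩
    have h4 := S_b n h
    rw [cb, if_neg (by omega)]
    omega
  · left
    refine ⟨h, ?_⟩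
    have h4 := S_a n h
    rw [ca]
    omega

lemma S_isC (n : ℕ) : isC (n % 15) ((S n + 5 * n) % 7) = true := by
  rw [isC_iff]
  rcases S_class n with h | h
  · exact Or.inl h.2
  · exact Or.inr h.2

theorem no_cube : ∀ n p : ℕ, 0 < n →
    ¬ (S p + S (p + 2 * n) = 2 * S (p + n) ∧ S (p + n) + S (p + 3 * n) = 2 * S (p + 2 * n)) := by
  intro n
  induction n using Nat.strong_induction_on with
  | _ n ih =>
    rintro p hn ⟨heq, heq2⟩
    have hc0 := S_class p
    have hc1 := S_class (p + n)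
    have hc2 := S_class (p + 2 * n)
    have hc3 := S_class (p + 3 * n)
    have hr0 : p % 15 < 15 := Nat.mod_lt _ (by norm_num)
    have hr1 : (p + n) % 15 < 15 := Nat.mod_lt _ (by norm_num)
    have e1 : nr (p % 15) ((p + n) % 15) = (p + 2 * n) % 15 := by rw [nr]; omega
    have e2 : ns ((S p + 5 * p) % 7) ((S (p + n) + 5 * (p + n)) % 7) =
        (S (p + 2 * n) + 5 * (p + 2 * n)) % 7 := by rw [ns]; omega
    have e3 : nr ((p + n) % 15) ((p + 2 * n) % 15) = (p + 3 * n) % 15 := by rw [nr]; omega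
    have e4 : ns ((S (p + n) + 5 * (p + n)) % 7) ((S (p + 2 * n) + 5 * (p + 2 * n)) % 7) =
        (S (p + 3 * n) + 5 * (p + 3 * n)) % 7 := by rw [ns]; omega
    have key := ap_facts (r0 := p % 15) (r1 := (p + n) % 15) (s0 := (S p + 5 * p) % 7)
      (s1 := (S (p + n) + 5 * (p + n)) % 7) hr0 hr1
      (by rcases hc0 with h | h; exacts [Or.inl h.2, Or.inr h.2])
      (by rcases hc1 with h | h; exacts [Or.inl h.2, Or.inr h.2])
      (by rw [e1, e2]; exact S_isC _)
      (by rw [e1, e2, e3, e4]; exact S_isC _)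
    obtain ⟨k1, k2⟩ := key
    have k3 : (p + 2 * n) % 15 = p % 15 := by omega
    have k4 : (S (p + 2 * n) + 5 * (p + 2 * n)) % 7 = (S p + 5 * p) % 7 := by omega
    have k5 : (p + 3 * n) % 15 = p % 15 := by omega
    have k6 : (S (p + 3 * n) + 5 * (p + 3 * n)) % 7 = (S p + 5 * p) % 7 := by omega
    obtain ⟨m, hm⟩ : ∃ m, n = 15 * m := ⟨n / 15, by omega⟩
    have q1 : (p + n) / 15 = p / 15 + m := by omega
    have q2 : (p + 2 * n) / 15 = p / 15 + 2 * m := by omega
    have q3 : (p + 3 * n) / 15 = p / 15 + 3 * m := by omega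
    have hm0 : 0 < m := by omega
    have hmn : m < n := by omega
    rw [k1.symm, k2.symm] at hc1
    rw [k3, k4] at hc2
    rw [k5, k6] at hc3
    have hsame : (p % 15 ≤ t (w (p / 15)) ∧ p % 15 ≤ t (w ((p + n) / 15)) ∧
        p % 15 ≤ t (w ((p + 2 * n) / 15)) ∧ p % 15 ≤ t (w ((p + 3 * n) / 15))) ∨
        (t (w (p / 15)) < p % 15 ∧ t (w ((p + n) / 15)) < p % 15 ∧
        t (w ((p + 2 * n) / 15)) < p % 15 ∧ t (w ((p + 3 * n) / 15)) < p % 15) := by
      rcases type_facts (p % 15) hr0 with hne | hall | hall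
      · rcases hc0 with h0 | h0
        · left
          refine ⟨h0.1, ?_, ?_, ?_⟩
          · rcases hc1 with h | h
            exacts [h.1, absurd (h0.2.symm.trans h.2) hne]
          · rcases hc2 with h | h
            exacts [h.1, absurd (h0.2.symm.trans h.2) hne]
          · rcases hc3 with h | h
            exacts [h.1, absurd (h0.2.symm.trans h.2) hne]
        · right
          refine ⟨h0.1, ?_, ?_, ?_⟩
          · rcases hc1 with h | h
            exacts [absurd (h.2.symm.trans h0.2) hne, h.1]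
          · rcases hc2 with h | h
            exacts [absurd (h.2.symm.trans h0.2) hne, h.1]
          · rcases hc3 with h | h
            exacts [absurd (h.2.symm.trans h0.2) hne, h.1]
      · exact Or.inl ⟨hall _ (w_lt _), hall _ (w_lt _), hall _ (w_lt _), hall _ (w_lt _)⟩
      · exact Or.inr ⟨hall _ (w_lt _), hall _ (w_lt _), hall _ (w_lt _), hall _ (w_lt _)⟩
    rcases hsame with ⟨g0, g1, g2, g3⟩ | ⟨g0, g1, g2, g3⟩
    · have f0 := S_a p g0
      have f1 := S_a (p + n) (by rw [← k1]; exact g1)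
      have f2 := S_a (p + 2 * n) (by rw [k3]; exact g2)
      have f3 := S_a (p + 3 * n) (by rw [k5]; exact g3)
      rw [← k1, q1] at f1
      rw [k3, q2] at f2
      rw [k5, q3] at f3
      refine ih m hmn (p / 15) hm0 ⟨?_, ?_⟩
      · omega
      · omega
    · have f0 := S_b p g0
      have f1 := S_b (p + n) (by rw [← k1]; exact g1)
      have f2 := S_b (p + 2 * n) (by rw [k3]; exact g2)
      have f3 := S_b (p + 3 * n) (by rw [k5]; exact g3)
      rw [← k1, q1] at f1
      rw [k3, q2] at f2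
      rw [k5, q3] at f3
      refine ih m hmn (p / 15 + 1) hm0 ⟨?_, ?_⟩
      · rw [show p / 15 + 1 + 2 * m = p / 15 + 2 * m + 1 by ring,
          show p / 15 + 1 + m = p / 15 + m + 1 by ring]
        omega
      · rw [show p / 15 + 1 + 2 * m = p / 15 + 2 * m + 1 by ring,
          show p / 15 + 1 + 3 * m = p / 15 + 3 * m + 1 by ring,
          show p / 15 + 1 + m = p / 15 + m + 1 by ring]
        omega

lemma S_add_sum (i n : ℕ) : S (i + n) = S i + ∑ k ∈ range n, w (i + k) := by
  rw [S, S, sum_range_add]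

theorem main : ∃ w : ℕ → ℕ, (∀ m, w m < 4) ∧
      ∀ i n : ℕ, 0 < n →
        ¬ ((∑ k ∈ Finset.range n, w (i + k) = ∑ k ∈ Finset.range n, w (i + n + k)) ∧
           (∑ k ∈ Finset.range n, w (i + n + k) = ∑ k ∈ Finset.range n, w (i + 2 * n + k))) := by
  refine ⟨w, w_lt, fun i n hn => ?_⟩
  rintro ⟨h, h'⟩
  have h1 := S_add_sum i n
  have h2 := S_add_sum (i + n) n
  have h3 := S_add_sum (i + 2 * n) n
  rw [show i + n + n = i + 2 * n by ring] at h2
  rw [show i + 2 * n + n = i + 3 * n by ring] at h3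
  apply no_cube n i hn
  omega

end Pool.Agent.Helper14.AddCube4
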