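import Pool.Agent.Helper14.AddPow.SqData

set_option autoImplicit false

namespace Pool.Agent.Helper14.AddSq

open Finset

/-! ### Unpacking the finite checks -/

lemma step_facts {i : ℕ} (hi : i < 101) :
    pa (i + 1) = pa i + a i ∧ pb (i + 1) = pb i + b i ∧ a i < 406 ∧ b i < 406 := by
  have h := chkStep_true
  rw [chkStep, List.all_eq_true] at h
  have h2 := h i (List.mem_range.2 hi)
  simp only [Bool.and_eq_true, Nat.beq_eq, Nat.blt_eq] at h2
  exact ⟨h2.1.1.1, h2.1.1.2, h2.1.2, h2.2⟩

lemma c_facts {x : ℕ} (hx : x < 406) :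
    t x < 101 ∧ c x < 406 ∧ pa (t x) + c x + TB = 4131 + 81 * x + pb (t x + 1) := by
  have h := chkC_true
  rw [chkC, List.all_eq_true] at h
  have h2 := h x (List.mem_range.2 hx)
  simp only [Bool.and_eq_true, Nat.beq_eq, Nat.blt_eq] at h2
  exact ⟨h2.1.1, h2.1.2, h2.2⟩

lemma class_facts {r : ℕ} (hr : r < 101) :
    hi r = pa r % 81 ∧ lo r < 81 ∧
      (r = 0 ∨ ((lo r + TB) % 81 = pb r % 81 ∧ hi r ≠ lo r)) := by
  have h := chkClass_true
  rw [chkClass, List.all_eq_true] at h
  have h2 := h r (List.mem_range.2 hr)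
  simp only [Bool.and_eq_true, Bool.or_eq_true, Nat.beq_eq, Nat.blt_eq,
    Bool.not_eq_true'] at h2
  refine ⟨h2.1.1, h2.1.2, ?_⟩
  rcases h2.2 with h3 | h3
  · exact Or.inl h3
  · right
    refine ⟨h3.1, fun h4 => ?_⟩
    have h5 := h3.2
    rw [h4] at h5
    simp at h5

lemma chk1_spec {r0 s0 r1 s1 : ℕ} (h : chk1 r0 s0 r1 s1 = true)
    (h2 : (2 * s1 + 81 - s0) % 81 = hi ((2 * r1 + 101 - r0) % 101) ∨
      (2 * s1 + 81 - s0) % 81 = lo ((2 * r1 + 101 - r0) % 101)) : r0 = r1 ∧ s0 = s1 := by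
  rw [chk1] at h
  simp only [Bool.or_eq_true, Bool.not_eq_true', Bool.and_eq_true, Nat.beq_eq] at h
  rcases h with h | h
  · exfalso
    rw [Bool.or_eq_false_iff] at h
    rcases h2 with h3 | h3
    · have h4 := h.1
      rw [h3] at h4
      simp at h4
    · have h4 := h.2
      rw [h3] at h4
      simp at h4
  · exact h

lemma ap_facts {r0 r1 s0 s1 : ℕ} (h0 : r0 < 101) (h1 : r1 < 101) (hs0 : s0 = hi r0 ∨ s0 = lo r0)
    (hs1 : s1 = hi r1 ∨ s1 = lo r1)
    (h2 : (2 * s1 + 81 - s0) % 81 = hi ((2 * r1 + 101 - r0) % 101) ∨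
      (2 * s1 + 81 - s0) % 81 = lo ((2 * r1 + 101 - r0) % 101)) : r0 = r1 ∧ s0 = s1 := by
  have h := chkAP_true
  rw [chkAP, List.all_eq_true] at h
  have h3 := h r0 (List.mem_range.2 h0)
  rw [List.all_eq_true] at h3
  have h4 := h3 r1 (List.mem_range.2 h1)
  simp only [Bool.and_eq_true] at h4
  rcases hs0 with rfl | rfl <;> rcases hs1 with rfl | rfl
  · exact chk1_spec h4.1.1.1 h2
  · exact chk1_spec h4.1.1.2 h2
  · exact chk1_spec h4.1.2 h2
  · exact chk1_spec h4.2 h2

lemma pa_zero : pa 0 = 0 := by decide +kernel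
lemma pb_zero : pb 0 = 0 := by decide +kernel
lemma pb_last : pb 101 = TB := by decide +kernel
lemma hi_zero : hi 0 = 0 := by decide +kernel
lemma img_start : img 398 0 = 398 := by decide +kernel

lemma img_lt {x i : ℕ} (hx : x < 406) (hi : i < 101) : img x i < 406 := by
  rw [img]
  have h1 := step_facts hi
  have h2 := c_facts hx
  split_ifs
  · exact h1.2.2.1
  · exact h2.2.1
  · exact h1.2.2.2

/-! ### The word -/

/-- the fixed point -/
def w : ℕ → ℕ
  | 0 => 398
  | (n + 1) => img (w ((n + 1) / 101)) ((n + 1) % 101)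
termination_by n => n
decreasing_by exact Nat.div_lt_self (Nat.succ_pos n) (by norm_num)

lemma w_eq (n : ℕ) : w n = img (w (n / 101)) (n % 101) := by
  cases n with
  | zero => simp only [Nat.zero_div, Nat.zero_mod]; rw [w, img_start]
  | succ n => rw [w]

lemma w_lt (n : ℕ) : w n < 406 := by
  induction n using Nat.strong_induction_on with
  | _ n ih =>
    cases n with
    | zero => rw [w]; norm_num
    | succ n =>
      rw [w]
      exact img_lt (ih _ (Nat.div_lt_self (Nat.succ_pos n) (by norm_num)))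
        (Nat.mod_lt _ (by norm_num))

/-- prefix sums -/
def S (n : ℕ) : ℕ := ∑ i ∈ range n, w i

lemma S_succ (n : ℕ) : S (n + 1) = S n + w n := by
  rw [S, S, sum_range_succ]

lemma block_pre {x : ℕ} (hx : x < 406) : ∀ r : ℕ, r ≤ 101 →
    (r ≤ t x → ∑ i ∈ range r, img x i = pa r) ∧
    (t x < r → ∑ i ∈ range r, img x i + TB = 4131 + 81 * x + pb r) := by
  intro r
  induction r with
  | zero =>
    intro _
    refine ⟨fun _ => by simp [pa_zero], fun h => absurd h (by omega)⟩
  | succ r ih =>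
    intro hr
    obtain ⟨ih1, ih2⟩ := ih (by omega)
    obtain ⟨hs1, hs2, -, -⟩ := step_facts (i := r) (by omega)
    refine ⟨fun h => ?_, fun h => ?_⟩
    · rw [sum_range_succ, ih1 (by omega), img, if_pos (by omega), hs1]
    · rw [sum_range_succ]
      rcases Nat.lt_or_ge (t x) r with h3 | h3
      · have h4 := ih2 h3
        rw [img, if_neg (by omega), if_neg (by omega), hs2]
        omega
      · have h4 : t x = r := by omega
        obtain ⟨-, -, h6⟩ := c_facts hx
        rw [ih1 (by omega), img, if_neg (by omega), if_pos h4.symm]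
        rw [h4] at h6
        exact h6

lemma block_total {x : ℕ} (hx : x < 406) : ∑ i ∈ range 101, img x i = 4131 + 81 * x := by
  have h := (block_pre hx 101 le_rfl).2 (c_facts hx).1
  rw [pb_last] at h
  omega

lemma w_block (q i : ℕ) (hi : i < 101) : w (101 * q + i) = img (w q) i := by
  rw [w_eq]
  congr 1
  · congr 1
    omega
  · omega

lemma S_mul (q : ℕ) : S (101 * q) = 4131 * q + 81 * S q := by
  induction q with
  | zero => simp [S]
  | succ q ih =>
    have h1 : S (101 * (q + 1)) = S (101 * q) + ∑ i ∈ range 101, img (w q) i := by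
      have h2 : ∑ i ∈ range 101, w (101 * q + i) = ∑ i ∈ range 101, img (w q) i :=
        sum_congr rfl (fun i hi => w_block q i (mem_range.1 hi))
      rw [S, S, show 101 * (q + 1) = 101 * q + 101 by ring, sum_range_add, h2]
    rw [h1, ih, block_total (w_lt q), S_succ]
    ring

lemma S_add (q r : ℕ) (hr : r ≤ 101) :
    S (101 * q + r) = 4131 * q + 81 * S q + ∑ i ∈ range r, img (w q) i := by
  have h2 : ∑ i ∈ range r, w (101 * q + i) = ∑ i ∈ range r, img (w q) i :=
    sum_congr rfl (fun i hi => w_block q i (by have := mem_range.1 hi; omega))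
  rw [← S_mul, S, S, sum_range_add, h2]

lemma S_hi (n : ℕ) (h : n % 101 ≤ t (w (n / 101))) :
    S n = 4131 * (n / 101) + 81 * S (n / 101) + pa (n % 101) := by
  have hr : n % 101 < 101 := Nat.mod_lt _ (by norm_num)
  have h1 := S_add (n / 101) (n % 101) hr.le
  rw [(block_pre (w_lt _) _ hr.le).1 h] at h1
  rw [← h1]
  congr 1
  omega

lemma S_lo (n : ℕ) (h : t (w (n / 101)) < n % 101) :
    S n + TB = 4131 * (n / 101 + 1) + 81 * S (n / 101 + 1) + pb (n % 101) := by
  have hr : n % 101 < 101 := Nat.mod_lt _ (by norm_num)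
  have h1 := S_add (n / 101) (n % 101) hr.le
  have h2 := (block_pre (w_lt (n / 101)) _ hr.le).2 h
  have h3 : S n = S (101 * (n / 101) + n % 101) := by
    congr 1
    omega
  rw [h3, h1, S_succ]
  omega

lemma S_class (n : ℕ) :
    (n % 101 ≤ t (w (n / 101)) ∧ S n % 81 = hi (n % 101)) ∨
    (t (w (n / 101)) < n % 101 ∧ S n % 81 = lo (n % 101)) := by
  have hr : n % 101 < 101 := Nat.mod_lt _ (by norm_num)
  obtain ⟨h1, h2, h3⟩ := class_facts hr
  rcases Nat.lt_or_ge (t (w (n / 101))) (n % 101) with h | h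
  · right
    refine ⟨h, ?_⟩
    have h4 := S_lo n h
    rcases h3 with h3 | h3
    · omega
    · have h5 := h3.1
      omega
  · left
    refine ⟨h, ?_⟩
    have h4 := S_hi n h
    rw [h1]
    omega

theorem no_square : ∀ n p : ℕ, 0 < n → S p + S (p + 2 * n) ≠ 2 * S (p + n) := by
  intro n
  induction n using Nat.strong_induction_on with
  | _ n ih =>
    intro p hn heq
    -- classes
    have hc0 := S_class p
    have hc1 := S_class (p + n)
    have hc2 := S_class (p + 2 * n)
    have hr0 : p % 101 < 101 := Nat.mod_lt _ (by norm_num)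
    have hr1 : (p + n) % 101 < 101 := Nat.mod_lt _ (by norm_num)
    have hr2 : (p + 2 * n) % 101 < 101 := Nat.mod_lt _ (by norm_num)
    have e1 : (2 * ((p + n) % 101) + 101 - p % 101) % 101 = (p + 2 * n) % 101 := by omega
    have e2 : (2 * (S (p + n) % 81) + 81 - S p % 81) % 81 = S (p + 2 * n) % 81 := by omega
    have key := ap_facts (r0 := p % 101) (r1 := (p + n) % 101) (s0 := S p % 81)
      (s1 := S (p + n) % 81) hr0 hr1
      (by rcases hc0 with h | h; exacts [Or.inl h.2, Or.inr h.2])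
      (by rcases hc1 with h | h; exacts [Or.inl h.2, Or.inr h.2])
      (by rw [e1, e2]; rcases hc2 with h | h; exacts [Or.inl h.2, Or.inr h.2])
    obtain ⟨k1, k2⟩ := key
    have k3 : (p + 2 * n) % 101 = p % 101 := by omega
    have k4 : S (p + 2 * n) % 81 = S p % 81 := by omega
    -- the quotients
    obtain ⟨m, hm⟩ : ∃ m, n = 101 * m := ⟨n / 101, by omega⟩
    have q1 : (p + n) / 101 = p / 101 + m := by omega
    have q2 : (p + 2 * n) / 101 = p / 101 + 2 * m := by omega
    obtain ⟨cf1, cf2, cf3⟩ := class_facts hr0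
    have hm0 : 0 < m := by omega
    have hmn : m < n := by omega
    rw [k1.symm, k2.symm] at hc1
    rw [k3, k4] at hc2
    have hsame : (p % 101 ≤ t (w (p / 101)) ∧ p % 101 ≤ t (w ((p + n) / 101)) ∧
        p % 101 ≤ t (w ((p + 2 * n) / 101))) ∨
        (t (w (p / 101)) < p % 101 ∧ t (w ((p + n) / 101)) < p % 101 ∧
        t (w ((p + 2 * n) / 101)) < p % 101) := by
      rcases cf3 with h0 | ⟨-, hne⟩
      · left
        rw [h0]
        exact ⟨Nat.zero_le _, Nat.zero_le _, Nat.zero_le _⟩
      · rcases hc0 with h0 | h0 <;> rcases hc1 with h1 | h1 <;> rcases hc2 with h2 | h2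
        · exact Or.inl ⟨h0.1, h1.1, h2.1⟩
        · exact absurd (h0.2.symm.trans h2.2) hne
        · exact absurd (h0.2.symm.trans h1.2) hne
        · exact absurd (h0.2.symm.trans h1.2) hne
        · exact absurd (h1.2.symm.trans h0.2) hne
        · exact absurd (h1.2.symm.trans h0.2) hne
        · exact absurd (h2.2.symm.trans h0.2) hne
        · exact Or.inr ⟨h0.1, h1.1, h2.1⟩
    rcases hsame with ⟨g0, g1, g2⟩ | ⟨g0, g1, g2⟩
    · have f0 := S_hi p g0
      have f1 := S_hi (p + n) (by rw [← k1]; exact g1)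
      have f2 := S_hi (p + 2 * n) (by rw [k3]; exact g2)
      rw [← k1, q1] at f1
      rw [k3, q2] at f2
      refine ih m hmn (p / 101) hm0 ?_
      omega
    · have f0 := S_lo p g0
      have f1 := S_lo (p + n) (by rw [← k1]; exact g1)
      have f2 := S_lo (p + 2 * n) (by rw [k3]; exact g2)
      rw [← k1, q1] at f1
      rw [k3, q2] at f2
      refine ih m hmn (p / 101 + 1) hm0 ?_
      rw [show p / 101 + 1 + 2 * m = p / 101 + 2 * m + 1 by ring,
        show p / 101 + 1 + m = p / 101 + m + 1 by ring]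
      omega

lemma S_add_sum (i n : ℕ) : S (i + n) = S i + ∑ k ∈ range n, w (i + k) := by
  rw [S, S, sum_range_add]

theorem main : ∃ A : Finset ℕ, ∃ w : ℕ → ℕ, (∀ i, w i ∈ A) ∧
      ∀ i n : ℕ, 0 < n →
        ∑ k ∈ Finset.range n, w (i + k) ≠ ∑ k ∈ Finset.range n, w (i + n + k) := by
  refine ⟨range 406, w, fun i => mem_range.2 (w_lt i), fun i n hn h => ?_⟩
  have h1 := S_add_sum i n
  have h2 := S_add_sum (i + n) n
  apply no_square n i hn
  rw [show i + 2 * n = i + n + n by ring]
  omega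

end Pool.Agent.Helper14.AddSq
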